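import Pool.Agent.Lib.helper22.Siegel

set_option autoImplicit false

open NumberField IsDedekindDomain Polynomial

namespace Pool.Agent.Lib.US27

open helper22.Val

/-- a nonzero natural number whose primes are at most `M` is a unit at the places where `M!` is -/
lemma val_smooth {K : Type} [Field K] [NumberField K] (w : HeightOneSpectrum (𝓞 K)) {M : ℕ}
    (hw : w.valuation K ((M.factorial : ℕ) : K) = 1) :
    ∀ n : ℕ, n ≠ 0 → (∀ r, r.Prime → r ∣ n → r ≤ M) → w.valuation K (n : K) = 1 := by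
  intro n
  induction n using Nat.recOnMul with
  | zero => intro h; exact absurd rfl h
  | one => intro _ _; simp
  | prime p hp =>
    intro _ h
    obtain ⟨c, hc⟩ := (hp.dvd_factorial).mpr (h p hp dvd_rfl)
    rw [hc, Nat.cast_mul, map_mul] at hw
    refine le_antisymm (val_natCast_le w p) (not_lt.mp fun hlt => ?_)
    exact (mul_lt_one_of_nonneg_of_lt_one_left zero_le hlt (val_natCast_le w c)).ne hw
  | mul a b iha ihb =>
    intro h0 h
    rw [Nat.cast_mul, map_mul, iha (left_ne_zero_of_mul h0) fun r hr hd => h r hr (hd.mul_right _),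
      ihb (right_ne_zero_of_mul h0) fun r hr hd => h r hr (hd.mul_left _), one_mul]

/-- fixed exponent -/
lemma fixed_exp (M : ℕ) {l : ℕ} (hl : 2 ≤ l) :
    {y : ℕ | ∀ r, r.Prime → r ∣ y ^ l + 1 → r ≤ M}.Finite := by
  classical
  set P : ℚ[X] := X ^ l - C (-1) with hP
  let K := P.SplittingField
  have : NumberField K := NumberField.of_module_finite ℚ K
  have hsp : (X ^ l - C (-1) : K[X]).Splits := by
    have h1 : (P.map (algebraMap ℚ K)).Splits := SplittingField.splits P
    have h2 : P.map (algebraMap ℚ K) = X ^ l - C (-1) := by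
      simp only [hP, Polynomial.map_sub, Polynomial.map_pow, map_X, map_neg, map_one,
        Polynomial.map_neg, Polynomial.map_one]
    rwa [h2] at h1
  have h2 : (X ^ l - C (-1) : K[X]).Separable :=
    separable_X_pow_sub_C (-1) (Nat.cast_ne_zero.mpr (by omega)) (neg_ne_zero.mpr one_ne_zero)
  have h3 : 1 < (X ^ l - C (-1) : K[X]).roots.toFinset.card := by
    rw [Multiset.toFinset_card_of_nodup (nodup_roots h2), ← hsp.natDegree_eq_card_roots,
      natDegree_X_pow_sub_C]
    omega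
  obtain ⟨a, ha, b, hb, hab⟩ := Finset.one_lt_card.mp h3
  rw [Multiset.mem_toFinset, mem_roots h2.ne_zero] at ha hb
  have ha' : a ^ l = -1 := by simpa [sub_eq_zero, add_eq_zero_iff_eq_neg] using ha
  have hb' : b ^ l = -1 := by simpa [sub_eq_zero, add_eq_zero_iff_eq_neg] using hb
  have hba : b - a ≠ 0 := sub_ne_zero.mpr hab.symm
  have hT := (finite_val_ne_one (L := K) (a := ((M.factorial : ℕ) : K))
    (Nat.cast_ne_zero.mpr M.factorial_ne_zero)).union (finite_val_ne_one hba)
  have hU := unit_eq_finite _ hT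
  have hinj : Function.Injective fun y : ℕ => ((y : K) - a) / (b - a) := by
    intro y z h
    simp only [div_left_inj' hba, sub_left_inj, Nat.cast_inj] at h
    exact h
  refine (hU.preimage hinj.injOn).subset fun y hy => ?_
  have hne : ∀ c : K, c ^ l = -1 → (y : K) - c ≠ 0 := by
    intro c hc h
    rw [sub_eq_zero] at h
    rw [← h, ← add_eq_zero_iff_eq_neg] at hc
    have : ((y ^ l + 1 : ℕ) : K) = 0 := by push_cast; exact hc
    exact Nat.succ_ne_zero _ (Nat.cast_eq_zero.mp this)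
  have hval : ∀ w : HeightOneSpectrum (𝓞 K), w.valuation K ((M.factorial : ℕ) : K) = 1 →
      ∀ c : K, c ^ l = -1 → w.valuation K ((y : K) - c) = 1 := by
    intro w hw c hc
    refine val_sub_eq_one (l := l) _ (val_natCast_le w y) ?_ ?_
    · rw [← pow_le_one_iff (show l ≠ 0 by omega), ← map_pow, hc, Valuation.map_neg, map_one]
    · rw [hc, ← val_smooth w hw (y ^ l + 1) (Nat.succ_ne_zero _) hy]
      push_cast
      rw [sub_neg_eq_add]
  have e : 1 - ((y : K) - a) / (b - a) = -((y : K) - b) / (b - a) := by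
    rw [one_sub_div hba]
    congr 1
    ring
  refine ⟨div_ne_zero (hne a ha') hba, ?_, fun w hw => ?_, fun w hw => ?_⟩
  · rw [e]; exact div_ne_zero (neg_ne_zero.mpr (hne b hb')) hba
  all_goals simp only [Set.mem_union, Set.mem_ofPred_eq, not_or, not_not] at hw
  · rw [map_div₀, hval w hw.1 a ha', hw.2, div_one]
  · rw [e, map_div₀, Valuation.map_neg, hval w hw.1 b hb', hw.2, div_one]

/-- an odd prime exponent is bounded -/
lemma odd_exp_le {M y l : ℕ} (hy : 2 ≤ y) (hl : l.Prime) (ho : Odd l)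
    (h : ∀ r, r.Prime → r ∣ y ^ l + 1 → r ≤ M) : l ≤ M := by
  set G : ℤ := ∑ i ∈ Finset.range l, (-(y : ℤ)) ^ i with hG
  have hmul : G * ((y : ℤ) + 1) = (y : ℤ) ^ l + 1 := by
    have := geom_sum_mul (-(y : ℤ)) l
    rw [ho.neg_pow, ← hG] at this
    linear_combination -this
  have hG1 : G.natAbs ≠ 1 := by
    intro h1
    have h2 := congrArg Int.natAbs hmul
    rw [Int.natAbs_mul, h1, one_mul] at h2
    have h3 : y + 1 = y ^ l + 1 := by
      have a1 : ((y : ℤ) + 1).natAbs = y + 1 := by omega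
      have a2 : ((y : ℤ) ^ l + 1) = ((y ^ l + 1 : ℕ) : ℤ) := by push_cast; rfl
      rwa [a1, a2, Int.natAbs_natCast] at h2
    have h4 : y ^ 1 < y ^ l := Nat.pow_lt_pow_right (by omega) hl.one_lt
    rw [pow_one] at h4
    omega
  obtain ⟨r, hr, hd⟩ := Nat.exists_prime_and_dvd hG1
  have hd' : (r : ℤ) ∣ G := Int.natCast_dvd.mpr hd
  have hr1 : r ∣ y ^ l + 1 := by
    have : (r : ℤ) ∣ ((y ^ l + 1 : ℕ) : ℤ) := by push_cast; rw [← hmul]; exact hd'.mul_right _
    exact Int.natCast_dvd_natCast.mp this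
  have hrM := h r hr hr1
  have := Fact.mk hr
  have := Fact.mk hl
  have hz : (-(y : ZMod r)) ^ l = 1 := by
    have := (ZMod.natCast_eq_zero_iff _ _).mpr hr1
    push_cast at this
    rw [ho.neg_pow]
    linear_combination -this
  have hs : ∑ i ∈ Finset.range l, (-(y : ZMod r)) ^ i = 0 := by
    have := (ZMod.intCast_zmod_eq_zero_iff_dvd _ _).mpr hd'
    rw [hG] at this
    push_cast at this
    exact this
  by_cases h1 : -(y : ZMod r) = 1
  · rw [h1] at hs
    simp only [one_pow, Finset.sum_const, Finset.card_range, nsmul_eq_mul, mul_one] at hs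
    have := (Nat.prime_dvd_prime_iff_eq hr hl).mp ((ZMod.natCast_eq_zero_iff _ _).mp hs)
    omega
  · have h0 : -(y : ZMod r) ≠ 0 := by
      intro h0
      rw [h0, zero_pow hl.ne_zero] at hz
      exact zero_ne_one hz
    have h2 := ZMod.orderOf_dvd_card_sub_one h0
    rw [orderOf_eq_prime hz h1] at h2
    have := Nat.le_of_dvd (by have := hr.two_le; omega) h2
    omega

/-- only finitely many perfect powers `x ^ e` have `x ^ e + 1` free of primes above `M` -/
theorem n0 (M : ℕ) : {x : ℕ × ℕ | 2 ≤ x.1 ∧ 2 ≤ x.2 ∧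
    ∀ r, r.Prime → r ∣ x.1 ^ x.2 + 1 → r ≤ M}.Finite := by
  have h1 : (⋃ l ∈ Set.Icc 2 (M + 2),
      (fun y => y ^ l) '' {y : ℕ | ∀ r, r.Prime → r ∣ y ^ l + 1 → r ≤ M}).Finite :=
    (Set.finite_Icc _ _).biUnion fun l hl => (fixed_exp M hl.1).image _
  obtain ⟨B, hB⟩ := h1.bddAbove
  refine ((Set.finite_Iic B).prod (Set.finite_Iic B)).subset ?_
  rintro ⟨x, e⟩ ⟨hx, he, h⟩
  simp only at hx he h
  obtain ⟨l, hl, k, hk⟩ := Nat.exists_prime_and_dvd (show e ≠ 1 by omega)
  have hk0 : k ≠ 0 := by rintro rfl; omega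
  have hxe : x ^ e = (x ^ k) ^ l := by rw [hk, mul_comm, pow_mul]
  have hy : 2 ≤ x ^ k := hx.trans (Nat.le_self_pow hk0 x)
  have hlM : l ≤ M + 2 := by
    rcases hl.eq_two_or_odd' with h2 | h2
    · omega
    · have := odd_exp_le hy hl h2 (M := M) (by rwa [← hxe])
      omega
  have hle : x ^ e ≤ B :=
    hB (Set.mem_biUnion (show l ∈ Set.Icc 2 (M + 2) from ⟨hl.two_le, hlM⟩)
      ⟨x ^ k, by simpa only [Set.mem_ofPred_eq, ← hxe] using h, hxe.symm⟩)
  exact ⟨(Nat.le_self_pow (by omega) x).trans hle,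
    ((Nat.lt_pow_self (show 1 < x by omega)).le).trans hle⟩

end Pool.Agent.Lib.US27
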